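import Pool.Agent.LibMA42.F10
import Pool.Agent.LibNC21.Gap
import Pool.Agent.LibNC21.Imp

/-!
# Large gap between additivity and `cofin⁻` for the slalom ideal `I_f`

`gapSentence B f` (file `LibNC21/Sent.lean`) is the truth value, in the Boolean-valued universe
`V^B`, of the statement `HasGap f` (file `LibNC21/Imp.lean`), with `f` replaced by its canonical
name; `LargeGap f` is the formula of the question Q1.
-/

set_option autoImplicit false

namespace Pool.Agent.Results.MP_3a91e3_lc.ConsistentGap

open Pool.Agent.LibNC21

/-- For each strictly increasing `f` with `0 < f(0)`: the statement `HasGap f` is true in some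
Boolean-valued universe, so it is consistent with ZFC; and it implies the formula of Q1. -/
theorem result (f : ℕ → ℕ) (hf : StrictMono f) (h0 : 0 < f 0) :
    (∃ (B : Type) (_ : CompleteBooleanAlgebra B) (_ : Nontrivial B), gapSentence B f = ⊤) ∧
    (HasGap f → LargeGap f) := by
  refine ⟨?_, largeGap_of_hasGap⟩
  obtain ⟨B, h1, h2, M⟩ := Pool.Agent.LibMA42.exists_model f hf
  exact ⟨B, h1, h2, gap_eq_top f (fun n => h0.trans_le (hf.monotone (Nat.zero_le n))) M⟩

end Pool.Agent.Results.MP_3a91e3_lc.ConsistentGap
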